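import Pool.Agent.W787.PS.StmC

/-!
# Project PS: exponential and L⁴ integrability of the elements of H¹
-/

open MeasureTheory Set Filter Topology

noncomputable section

namespace Pool.Agent.W787.PS

/-- Fatou's lemma in the form used below. -/
theorem h1a_fatou {M : Type} [MeasurableSpace M] (μ : Measure M)
    (f : ℕ → M → ℝ) (g : M → ℝ) (C : ℝ) (hC : 0 ≤ C) (hf0 : ∀ k x, 0 ≤ f k x)
    (hfi : ∀ k, Integrable (f k) μ)
    (hlim : ∀ᵐ x ∂μ, Tendsto (fun k => f k x) atTop (𝓝 (g x)))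
    (hle : ∀ᶠ k in atTop, ∫ x, f k x ∂μ ≤ C) (hg : AEStronglyMeasurable g μ) :
    Integrable g μ ∧ ∫ x, g x ∂μ ≤ C := by
  have hg0 : 0 ≤ᵐ[μ] g := by
    filter_upwards [hlim] with x hx
    exact ge_of_tendsto' hx fun k => hf0 k x
  have h1 : ∫⁻ x, ENNReal.ofReal (g x) ∂μ ≤ ENNReal.ofReal C := by
    have e1 : ∫⁻ x, ENNReal.ofReal (g x) ∂μ
        = ∫⁻ x, liminf (fun k => ENNReal.ofReal (f k x)) atTop ∂μ := by
      refine lintegral_congr_ae ?_
      filter_upwards [hlim] with x hx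
      exact ((ENNReal.continuous_ofReal.tendsto _).comp hx).liminf_eq.symm
    rw [e1]
    refine (lintegral_liminf_le' fun k => (hfi k).aestronglyMeasurable.aemeasurable.ennreal_ofReal).trans ?_
    refine (liminf_le_of_frequently_le' (Eventually.frequently ?_))
    filter_upwards [hle] with k hk
    rw [← ofReal_integral_eq_lintegral_ofReal (hfi k) (Eventually.of_forall fun x => hf0 k x)]
    exact ENNReal.ofReal_le_ofReal hk
  have h2 : Integrable g μ := by
    refine ⟨hg, ?_⟩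
    rw [hasFiniteIntegral_iff_ofReal hg0]
    exact lt_of_le_of_lt h1 ENNReal.ofReal_lt_top
  refine ⟨h2, ?_⟩
  rw [integral_eq_lintegral_of_nonneg_ae hg0 hg]
  exact ENNReal.toReal_le_of_le_ofReal hC h1

theorem h1a (h0 : S_H1Z) : S_H1A := by
  intro M _ _ _ _ G hL4 hMT
  obtain ⟨hz1, hz2, hz3, hz4, hz5⟩ := h0 M G
  have hmeas : ∀ U : G.H1, AEStronglyMeasurable (fun x => G.toL2 U x) G.vol :=
    fun U => Lp.aestronglyMeasurable (G.toL2 U)
  have hmexp : ∀ (U : G.H1) (q : ℝ),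
      AEStronglyMeasurable (fun x => Real.exp (q * |G.toL2 U x|)) G.vol := by
    intro U q
    have hc : Continuous (fun y : ℝ => Real.exp (q * |y|)) := by fun_prop
    exact hc.comp_aestronglyMeasurable (hmeas U)
  have p1 : ∀ q : ℝ, 0 < q → ∃ ε C : ℝ, 0 < ε ∧ 0 < C ∧ ∀ U : G.H1, ‖U‖ ≤ ε →
    Integrable (fun x => Real.exp (q * |G.toL2 U x|)) G.vol ∧
    ∫ x, Real.exp (q * |G.toL2 U x|) ∂G.vol ≤ C := by
    intro q hq
    obtain ⟨ε, C, hε, hC, hMT'⟩ := hMT q hq
    refine ⟨ε / 2, C, by linarith, hC, fun U hU => ?_⟩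
    obtain ⟨u, hu, hux⟩ := hz5 U
    refine h1a_fatou G.vol (fun k x => Real.exp (q * |Geo.fn (u k) x|)) _ C hC.le
      (fun k x => (Real.exp_pos _).le) ?_ ?_ ?_ (hmexp U q)
    · intro k
      refine G.integrable_of_cont ?_
      have := G.cont _ (u k).2
      have h2 : Continuous (Geo.fn (u k)) := this
      fun_prop
    · filter_upwards [hux] with x hx
      have hc : Continuous (fun y : ℝ => Real.exp (q * |y|)) := by fun_prop
      exact (hc.tendsto _).comp hx
    · have hn : Tendsto (fun k => ‖((u k : G.SmH) : G.H1)‖) atTop (𝓝 ‖U‖) := hu.norm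
      have hlt : ‖U‖ < ε := by linarith
      filter_upwards [hn.eventually_lt_const hlt] with k hk
      refine hMT' _ (u k).2 ?_
      have := hz3 (u k)
      have h3 : ‖((u k : G.SmH) : G.H1)‖ ^ 2 ≤ ε ^ 2 := by
        have := norm_nonneg ((u k : G.SmH) : G.H1)
        nlinarith
      calc G.h1sq (u k).1 = ‖((u k : G.SmH) : G.H1)‖ ^ 2 := (hz3 (u k)).symm
        _ ≤ ε ^ 2 := h3
  refine ⟨p1, ?_, ?_⟩
  · obtain ⟨C, hC, hL4'⟩ := hL4
    refine ⟨C, hC, fun U => ?_⟩
    obtain ⟨u, hu, hux⟩ := hz5 U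
    have hm4 : AEStronglyMeasurable (fun x => G.toL2 U x ^ 4) G.vol := (hmeas U).pow 4
    have hn : Tendsto (fun k => C * ‖((u k : G.SmH) : G.H1)‖ ^ 4) atTop (𝓝 (C * ‖U‖ ^ 4)) :=
      (hu.norm.pow 4).const_mul C
    have key : ∀ δ : ℝ, 0 < δ → Integrable (fun x => G.toL2 U x ^ 4) G.vol ∧
        ∫ x, G.toL2 U x ^ 4 ∂G.vol ≤ C * ‖U‖ ^ 4 + δ := by
      intro δ hδ
      refine h1a_fatou G.vol (fun k x => (Geo.fn (u k) x) ^ 4) _ _ (by positivity)
        (fun k x => by positivity) ?_ ?_ ?_ hm4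
      · intro k
        refine G.integrable_of_cont ?_
        have h2 : Continuous (Geo.fn (u k)) := G.cont _ (u k).2
        fun_prop
      · filter_upwards [hux] with x hx
        exact hx.pow 4
      · filter_upwards [hn.eventually_lt_const (show C * ‖U‖ ^ 4 < C * ‖U‖ ^ 4 + δ by linarith)]
          with k hk
        have h3 := hL4' _ (u k).2
        have h4 : G.h1sq (u k).1 = ‖((u k : G.SmH) : G.H1)‖ ^ 2 := (hz3 (u k)).symm
        rw [h4] at h3
        calc ∫ x, (Geo.fn (u k) x) ^ 4 ∂G.vol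
            ≤ C * (‖((u k : G.SmH) : G.H1)‖ ^ 2) ^ 2 := h3
          _ = C * ‖((u k : G.SmH) : G.H1)‖ ^ 4 := by ring
          _ ≤ _ := hk.le
    refine ⟨(key 1 one_pos).1, le_of_forall_pos_le_add fun δ hδ => (key δ hδ).2⟩
  · intro U q
    rcases le_or_gt q 0 with hq | hq
    · refine Integrable.of_bound (hmexp U q) 1 (Eventually.of_forall fun x => ?_)
      rw [Real.norm_eq_abs, abs_of_pos (Real.exp_pos _)]
      rw [← Real.exp_zero]
      exact Real.exp_le_exp.mpr (mul_nonpos_of_nonpos_of_nonneg hq (abs_nonneg _))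
    · obtain ⟨ε, C, hε, hC, hp⟩ := p1 q hq
      obtain ⟨u, hu, hux⟩ := hz5 U
      obtain ⟨k, hk⟩ := (Metric.tendsto_atTop.mp hu ε hε)
      have hk' := hk k le_rfl
      rw [dist_comm, dist_eq_norm] at hk'
      obtain ⟨hi, -⟩ := hp (U - ((u k : G.SmH) : G.H1)) hk'.le
      have h2 : Continuous (Geo.fn (u k)) := G.cont _ (u k).2
      obtain ⟨B, hB⟩ := isCompact_univ.exists_bound_of_continuousOn (s := univ) h2.continuousOn
      refine Integrable.mono' (hi.const_mul (Real.exp (q * B))) (hmexp U q) ?_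
      have hlin : G.toL2 (U - ((u k : G.SmH) : G.H1)) = G.toL2 U - G.toL2 ((u k : G.SmH) : G.H1) :=
        map_sub _ _ _
      have e1 := Lp.coeFn_sub (G.toL2 U) (G.toL2 ((u k : G.SmH) : G.H1))
      have e2 := (G.memLp (u k)).coeFn_toLp
      filter_upwards [e1, e2] with x hx1 hx2
      rw [Real.norm_eq_abs, abs_of_pos (Real.exp_pos _), ← Real.exp_add]
      refine Real.exp_le_exp.mpr ?_
      rw [hlin, hx1]
      simp only [Pi.sub_apply]
      rw [hz1 (u k), hx2]
      have hb := hB x (mem_univ x)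
      rw [Real.norm_eq_abs] at hb
      have ht : |(G.toL2 U : M → ℝ) x| ≤ |Geo.fn (u k) x| + |(G.toL2 U : M → ℝ) x - Geo.fn (u k) x| := by
        have := abs_add_le (Geo.fn (u k) x) ((G.toL2 U : M → ℝ) x - Geo.fn (u k) x)
        simpa using this
      nlinarith

end Pool.Agent.W787.PS
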